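import Pool.Agent.Helper33.DZ.Stmts

open Complex Polynomial MeasureTheory

namespace Pool.Agent.Helper63.DZ

open Pool.Agent.Helper33.DZ

theorem hh_add (w : ℕ) (c d : ℕ → ℝ) (a : ℕ) : hh w (c + d) a = hh w c a + hh w d a := by
  unfold hh
  rw [← Finset.sum_add_distrib]
  refine Finset.sum_congr rfl fun n _ => ?_
  rw [Pi.add_apply]
  ring

theorem hh_smul (w : ℕ) (r : ℝ) (c : ℕ → ℝ) (a : ℕ) : hh w (r • c) a = r * hh w c a := by
  unfold hh
  rw [Finset.mul_sum]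
  refine Finset.sum_congr rfl fun n _ => ?_
  rw [Pi.smul_apply, smul_eq_mul]
  ring

/-- the real space of even period polynomials -/
def Pm (w : ℕ) : Submodule ℝ (ℕ → ℝ) where
  carrier := {c | Per w c}
  add_mem' := by
    rintro c d ⟨h1, h2, h3, h4⟩ ⟨k1, k2, k3, k4⟩
    refine ⟨fun n hn => ?_, ?_, fun n hn => ?_, fun a ha => ?_⟩
    · rw [Pi.add_apply, h1 n hn, k1 n hn, add_zero]
    · rw [Pi.add_apply, h2, k2, add_zero]
    · rw [Pi.add_apply, h3 n hn, k3 n hn, add_zero]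
    · rw [Pi.add_apply, h4 a ha, k4 a ha, hh_add, hh_add]
      ring
  zero_mem' := by
    refine ⟨fun n _ => rfl, rfl, fun n _ => rfl, fun a _ => ?_⟩
    have h : ∀ b, hh w (0 : ℕ → ℝ) b = 0 := by
      intro b
      unfold hh
      refine Finset.sum_eq_zero fun n _ => ?_
      rw [Pi.zero_apply, mul_zero]
    rw [h, h, sub_zero]
    rfl
  smul_mem' := by
    rintro r c ⟨h1, h2, h3, h4⟩
    refine ⟨fun n hn => ?_, ?_, fun n hn => ?_, fun a ha => ?_⟩
    · rw [Pi.smul_apply, h1 n hn, smul_zero]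
    · rw [Pi.smul_apply, h2, smul_zero]
    · rw [Pi.smul_apply, h3 n hn, smul_zero]
    · rw [Pi.smul_apply, h4 a ha, hh_smul, hh_smul, smul_eq_mul]
      ring

theorem mem_Pm (w : ℕ) (c : ℕ → ℝ) : c ∈ Pm w ↔ Per w c := Iff.rfl

theorem intg_ph (INTG : ST_INTG) (g : ℂ → ℂ) (h1 : DifferentiableOn ℂ g (Metric.ball 0 1))
    (h2 : g 0 = 0) (n : ℕ) : IntegrableOn (fun t : ℝ => ph g t * t ^ n) (Set.Ioi 1) := by
  have h := (INTG g h1 h2 n).re
  refine h.congr (Filter.Eventually.of_forall fun t => ?_)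
  show (g ((Real.exp (-(2 * Real.pi * t)) : ℝ) : ℂ) * (t : ℂ) ^ n).re = ph g t * t ^ n
  rw [← Complex.ofReal_pow, Complex.re_mul_ofReal]
  rfl

theorem eval_GG (w : ℕ) (N : Finset ℕ) (a : ℕ → ℝ) (e t : ℝ) :
    (GG w N a e).eval t = ∑ n ∈ N, a n * (t ^ n + e * t ^ (w - n)) := by
  unfold GG
  rw [Polynomial.eval_finsetSum]
  refine Finset.sum_congr rfl fun n _ => ?_
  simp only [Polynomial.eval_mul, Polynomial.eval_add, Polynomial.eval_C, Polynomial.eval_pow,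
    Polynomial.eval_X]

/-- the sum of the even periods of `g` against `a` is the integral against the test polynomial -/
theorem sum_cc (INTG : ST_INTG) (w : ℕ) (g : ℂ → ℂ)
    (h1 : DifferentiableOn ℂ g (Metric.ball 0 1)) (h2 : g 0 = 0) (N : Finset ℕ)
    (hN : ∀ n ∈ N, Even n ∧ 0 < n ∧ n < w) (a : ℕ → ℝ) :
    ∑ n ∈ N, a n * cc w (ph g) n =
      ∫ t in Set.Ioi (1 : ℝ), ph g t *
        (GG w N (fun n => a n * ((w.choose n : ℝ) * (-1) ^ (n / 2))) ((-1) ^ (w / 2 + 1))).eval t := by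
  have hI : ∀ n : ℕ, IntegrableOn (fun t : ℝ => ph g t *
      (t ^ n + (-1) ^ (w / 2 + 1) * t ^ (w - n))) (Set.Ioi 1) := by
    intro n
    have h3 := (intg_ph INTG g h1 h2 n).add
      ((intg_ph INTG g h1 h2 (w - n)).const_mul ((-1) ^ (w / 2 + 1)))
    refine h3.congr (Filter.Eventually.of_forall fun t => ?_)
    show ph g t * t ^ n + (-1) ^ (w / 2 + 1) * (ph g t * t ^ (w - n)) = _
    ring
  have h3 : ∀ n ∈ N, a n * cc w (ph g) n = ∫ t in Set.Ioi (1 : ℝ),
      (a n * ((w.choose n : ℝ) * (-1) ^ (n / 2))) *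
        (ph g t * (t ^ n + (-1) ^ (w / 2 + 1) * t ^ (w - n))) := by
    intro n hn
    obtain ⟨e1, e2, e3⟩ := hN n hn
    rw [MeasureTheory.integral_const_mul]
    unfold cc cf
    rw [if_pos ⟨e2, e3⟩, if_pos e1]
    ring
  rw [Finset.sum_congr rfl h3, ← MeasureTheory.integral_finset_sum]
  · refine MeasureTheory.integral_congr_ae (Filter.Eventually.of_forall fun t => ?_)
    show ∑ n ∈ N, (a n * ((w.choose n : ℝ) * (-1) ^ (n / 2))) *
        (ph g t * (t ^ n + (-1) ^ (w / 2 + 1) * t ^ (w - n))) = ph g t *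
        (GG w N (fun n => a n * ((w.choose n : ℝ) * (-1) ^ (n / 2))) ((-1) ^ (w / 2 + 1))).eval t
    rw [eval_GG, Finset.mul_sum]
    refine Finset.sum_congr rfl fun n _ => ?_
    ring
  · intro n _
    exact (hI n).const_mul _

theorem no_func (FORM : ST_FORM) (DIM : ST_DIM) (PERC : ST_PERC) (DESC : ST_DESC) (SGN : ST_SGN)
    (POS : ST_POS) (INTG : ST_INTG) (m : ℕ) (N : Finset ℕ)
    (hN : ∀ n ∈ N, Even n ∧ 2 ≤ n ∧ n < m - 1) (hc : N.card ≤ dS m) (a : ℕ → ℝ)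
    (ha : ∃ n ∈ N, a n ≠ 0)
    (hz : ∀ c : ℕ → ℝ, Per (2 * m - 2) c → ∑ n ∈ N, a n * c n = 0) : False := by
  obtain ⟨n₁, hn₁, hn₂⟩ := ha
  have hNc : 0 < N.card := Finset.card_pos.2 ⟨n₁, hn₁⟩
  have hd : 0 < dS m := lt_of_lt_of_le hNc hc
  obtain ⟨x, y, hxy, hx⟩ := (DIM m).2 hd
  obtain ⟨W, u, hW, hu, hWp, hum, hP⟩ := FORM m x y (dS m) hxy hx hd
  have hw2 : 2 ≤ 2 * m - 2 := by omega
  have hwe : Even (2 * m - 2) := ⟨m - 1, by omega⟩
  set w : ℕ := 2 * m - 2 with hwdef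
  have hww : w + 2 = 2 * m := by omega
  set a' : ℕ → ℝ := fun n => a n * ((w.choose n : ℝ) * (-1) ^ (n / 2)) with ha'
  have he : ((-1 : ℝ) ^ (w / 2 + 1) = 1 ∨ (-1 : ℝ) ^ (w / 2 + 1) = -1) := neg_one_pow_eq_or ℝ _
  obtain ⟨hG, hS⟩ := DESC w N a' ((-1) ^ (w / 2 + 1)) he
    (fun n hn => by
      obtain ⟨_, _, h3⟩ := hN n hn
      omega)
    ⟨n₁, hn₁, by
      have h4 : (w.choose n₁ : ℝ) ≠ 0 := by
        obtain ⟨_, _, h3⟩ := hN n₁ hn₁
        exact_mod_cast (Nat.choose_pos (by omega)).ne'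
      exact mul_ne_zero hn₂ (mul_ne_zero h4 (pow_ne_zero _ (by norm_num)))⟩
  obtain ⟨S, hS1, σ, hσ, hsg⟩ := SGN _ hG
  have hSc : S.card < dS m := by
    have := hS S hS1
    omega
  obtain ⟨g, hg, hgt⟩ := hP (∏ x ∈ S, (Polynomial.X - Polynomial.C (u x))) (by
    rw [Polynomial.natDegree_finset_prod_X_sub_C_eq_card]
    exact hSc)
  have hev : ∀ t : ℝ, 1 < t → ph g t = W t * ∏ x ∈ S, (u t - u x) := by
    intro t ht
    rw [hgt t ht, Polynomial.eval_prod]
    simp only [Polynomial.eval_sub, Polynomial.eval_X, Polynomial.eval_C]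
  have hper : Per w (cc w (ph g)) := PERC w g hw2 hwe (by rw [hww]; exact hg)
  have h0 := hz _ hper
  rw [sum_cc INTG w g hg.diff hg.zero N (fun n hn => by
    obtain ⟨k1, k2, k3⟩ := hN n hn
    exact ⟨k1, by omega, by omega⟩) a] at h0
  have hIG : IntegrableOn (fun t : ℝ => ph g t * (GG w N a' ((-1) ^ (w / 2 + 1))).eval t)
      (Set.Ioi 1) := by
    have hI : ∀ n : ℕ, IntegrableOn (fun t : ℝ => ph g t *
        (t ^ n + (-1) ^ (w / 2 + 1) * t ^ (w - n))) (Set.Ioi 1) := by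
      intro n
      have h3 := (intg_ph INTG g hg.diff hg.zero n).add
        ((intg_ph INTG g hg.diff hg.zero (w - n)).const_mul ((-1) ^ (w / 2 + 1)))
      refine h3.congr (Filter.Eventually.of_forall fun t => ?_)
      show ph g t * t ^ n + (-1) ^ (w / 2 + 1) * (ph g t * t ^ (w - n)) = _
      ring
    have h5 : IntegrableOn (fun t : ℝ => ∑ n ∈ N, a' n *
        (ph g t * (t ^ n + (-1) ^ (w / 2 + 1) * t ^ (w - n)))) (Set.Ioi 1) :=
      MeasureTheory.integrable_finset_sum _ fun n _ => (hI n).const_mul _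
    refine h5.congr (Filter.Eventually.of_forall fun t => ?_)
    show ∑ n ∈ N, a' n * (ph g t * (t ^ n + (-1) ^ (w / 2 + 1) * t ^ (w - n))) =
      ph g t * (GG w N a' ((-1) ^ (w / 2 + 1))).eval t
    rw [eval_GG, Finset.mul_sum]
    refine Finset.sum_congr rfl fun n _ => ?_
    ring
  have heq : Set.EqOn (fun t : ℝ => ph g t * (GG w N a' ((-1) ^ (w / 2 + 1))).eval t)
      (fun t : ℝ => (W t * ∏ x ∈ S, (u t - u x)) * (GG w N a' ((-1) ^ (w / 2 + 1))).eval t)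
      (Set.Ioi 1) := by
    intro t ht
    show ph g t * _ = (W t * ∏ x ∈ S, (u t - u x)) * _
    rw [hev t ht]
  refine POS W u (GG w N a' ((-1) ^ (w / 2 + 1))) S σ hW hu hWp hum hG hσ
    (fun x hx => (hS1 x hx).1) hsg ?_ ?_
  · exact hIG.congr_fun heq measurableSet_Ioi
  · rw [← MeasureTheory.setIntegral_congr_fun measurableSet_Ioi heq]
    exact h0

theorem st_SURJ (FORM : ST_FORM) (DIM : ST_DIM) (PERC : ST_PERC) (DESC : ST_DESC) (SGN : ST_SGN)
    (POS : ST_POS) (INTG : ST_INTG) : ST_SURJ := by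
  intro m N hN hc n₀ hn₀
  set R : (ℕ → ℝ) →ₗ[ℝ] (N → ℝ) := LinearMap.funLeft ℝ ℝ (fun n : N => (n : ℕ)) with hR
  have htop : (Pm (2 * m - 2)).map R = ⊤ := by
    by_contra hne
    obtain ⟨f, hf0, hf⟩ := Submodule.exists_le_ker_of_lt_top _ (lt_top_iff_ne_top.2 hne)
    have hsum : ∀ v : N → ℝ, f v = ∑ i : N, v i • f (fun j => if i = j then 1 else 0) :=
      fun v => LinearMap.pi_apply_eq_sum_univ f v
    have hb : ∃ i : N, f (fun j => if i = j then 1 else 0) ≠ 0 := by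
      by_contra hcon
      push Not at hcon
      refine hf0 (LinearMap.ext fun v => ?_)
      rw [hsum v]
      refine Finset.sum_eq_zero fun i _ => ?_
      rw [hcon i, smul_zero]
    obtain ⟨i, hi⟩ := hb
    refine no_func FORM DIM PERC DESC SGN POS INTG m N hN hc
      (fun n => if h : n ∈ N then f (fun j => if (⟨n, h⟩ : N) = j then 1 else 0) else 0)
      ⟨i, i.2, ?_⟩ ?_
    · show (if h : (i : ℕ) ∈ N then f (fun j => if (⟨i, h⟩ : N) = j then 1 else 0) else 0) ≠ 0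
      rw [dif_pos i.2]
      exact hi
    · intro c hcP
      have h1 : R c ∈ LinearMap.ker f := hf (Submodule.mem_map_of_mem ((mem_Pm _ c).2 hcP))
      rw [LinearMap.mem_ker, hsum] at h1
      rw [← Finset.sum_coe_sort N]
      refine Eq.trans (Finset.sum_congr rfl fun j _ => ?_) h1
      show (if h : (j : ℕ) ∈ N then f (fun k => if (⟨j, h⟩ : N) = k then 1 else 0) else 0) * c j =
        R c j • f (fun k => if j = k then 1 else 0)
      rw [dif_pos j.2, smul_eq_mul, mul_comm]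
      rfl
  have hmem : (fun j : N => if j = ⟨n₀, hn₀⟩ then (1 : ℝ) else 0) ∈ (Pm (2 * m - 2)).map R := by
    rw [htop]
    trivial
  obtain ⟨c, hcP, hcv⟩ := hmem
  refine ⟨c, hcP, ?_, fun n hn hne => ?_⟩
  · have := congrFun hcv ⟨n₀, hn₀⟩
    rw [if_pos rfl] at this
    exact this
  · have := congrFun hcv ⟨n, hn⟩
    rw [if_neg (fun h => hne (congrArg Subtype.val h))] at this
    exact this

end Pool.Agent.Helper63.DZ
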